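import Mathlib
import Pool.Agent.Y556.TW.SI

/-!
# Rational `S`-integers where an irreducible polynomial of degree at least two is an `S`-unit
-/

set_option autoImplicit false

namespace Pool.Agent.V1138.BO

open Polynomial NumberField IsDedekindDomain
open Pool.Agent.Helper259.AbsHt
open Pool.Agent.Y556.TW (Ov mem_Ov bad_finite GS GS_fg mem_GS unit_eq)

/-- `q` is an element of `ℤ[1/N]` -/
def LocN (N : ℕ) (q : ℚ) : Prop := ∃ (k : ℕ) (m : ℤ), q = m / (N : ℚ) ^ k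

theorem LocN.mem {N : ℕ} {q : ℚ} (h : LocN N q) (R : Subring Qbar) (hR : ((N : ℕ) : Qbar)⁻¹ ∈ R) :
    ((q : ℚ) : Qbar) ∈ R := by
  obtain ⟨k, m, rfl⟩ := h
  push_cast
  rw [div_eq_mul_inv, ← inv_pow]
  exact R.mul_mem (intCast_mem R m) (R.pow_mem hR k)

theorem LocN.int (N : ℕ) (m : ℤ) : LocN N m := ⟨0, m, by simp⟩

theorem LocN.mul {N : ℕ} {p q : ℚ} (hp : LocN N p) (hq : LocN N q) : LocN N (p * q) := by
  obtain ⟨k, m, rfl⟩ := hp
  obtain ⟨l, n, rfl⟩ := hq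
  refine ⟨k + l, m * n, ?_⟩
  push_cast
  rw [pow_add, div_mul_div_comm]

theorem LocN.add {N : ℕ} (hN : N ≠ 0) {p q : ℚ} (hp : LocN N p) (hq : LocN N q) :
    LocN N (p + q) := by
  obtain ⟨k, m, rfl⟩ := hp
  obtain ⟨l, n, rfl⟩ := hq
  have h0 : (N : ℚ) ≠ 0 := by exact_mod_cast hN
  refine ⟨k + l, m * N ^ l + n * N ^ k, ?_⟩
  push_cast
  rw [pow_add]
  field_simp

theorem LocN.aeval {N : ℕ} (hN : N ≠ 0) {q : ℚ} (hq : LocN N q) (F : ℤ[X]) :
    LocN N (aeval q F) := by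
  induction F using Polynomial.induction_on' with
  | add p r hp hr =>
    rw [map_add]
    exact hp.add hN hr
  | monomial n a =>
    rw [aeval_monomial]
    have h1 : LocN N ((algebraMap ℤ ℚ) a) := LocN.int N a
    refine h1.mul ?_
    induction n with
    | zero => simpa using LocN.int N 1
    | succ n ih =>
      rw [pow_succ]
      exact ih.mul hq

theorem inv_sub_mem (R : Subring Qbar) (F : ℤ[X]) (y θ : Qbar) (hy : y ∈ R) (hθ : θ ∈ R)
    (h0 : aeval θ F = 0) (hne : aeval y F ≠ 0) (hinv : (aeval y F)⁻¹ ∈ R) : (y - θ)⁻¹ ∈ R := by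
  obtain ⟨c, hc⟩ := Polynomial.sub_dvd_eval_sub (⟨y, hy⟩ : R) ⟨θ, hθ⟩
    (F.map (Int.castRingHom R))
  have hev : ∀ a : R, R.subtype (eval a (F.map (Int.castRingHom R))) = aeval (a : Qbar) F := by
    intro a
    rw [eval_map, hom_eval₂, aeval_def]
    congr 1
  have h1 := congrArg R.subtype hc
  rw [map_sub, map_mul, hev, hev] at h1
  have h2 : aeval y F = (y - θ) * (c : Qbar) := by
    have h3 : aeval ((⟨y, hy⟩ : R) : Qbar) F = aeval y F := rfl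
    have h4 : aeval ((⟨θ, hθ⟩ : R) : Qbar) F = 0 := h0
    rw [h4, sub_zero] at h1
    exact h1
  have h3 : (y - θ) ≠ 0 := by
    intro h
    rw [h, zero_mul] at h2
    exact hne h2
  have h4 : (y - θ)⁻¹ = (c : Qbar) * (aeval y F)⁻¹ := by
    have h5 : (c : Qbar) ≠ 0 := by
      intro h
      rw [h, mul_zero] at h2
      exact hne h2
    rw [h2]
    field_simp
  rw [h4]
  exact R.mul_mem c.2 hinv

theorem two_roots (F : ℤ[X]) (hF : Irreducible F) (hd : 2 ≤ F.natDegree) :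
    ∃ θ₁ θ₂ : Qbar, θ₁ ≠ θ₂ ∧ aeval θ₁ F = 0 ∧ aeval θ₂ F = 0 := by
  classical
  have hprim : F.IsPrimitive := hF.isPrimitive (by omega)
  have hirr : Irreducible (F.map (Int.castRingHom ℚ)) :=
    (IsPrimitive.Int.irreducible_iff_irreducible_map_cast hprim).1 hF
  have hsep : (F.map (Int.castRingHom ℚ)).Separable := hirr.separable
  have hcard := card_rootSet_eq_natDegree (K := Qbar) hsep (IsAlgClosed.splits _)
  have hdeg : (F.map (Int.castRingHom ℚ)).natDegree = F.natDegree :=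
    natDegree_map_eq_of_injective (RingHom.injective_int _) F
  rw [hdeg] at hcard
  have h1 : 1 < Fintype.card ((F.map (Int.castRingHom ℚ)).rootSet Qbar) := by omega
  obtain ⟨a, b, hab⟩ := Fintype.one_lt_card_iff.1 h1
  have h2 : ∀ c : (F.map (Int.castRingHom ℚ)).rootSet Qbar, aeval (c : Qbar) F = 0 := by
    intro c
    have h3 := (mem_rootSet.1 c.2).2
    rw [aeval_def, eval₂_map] at h3
    rw [aeval_def, ← h3]
    congr 1
  exact ⟨a, b, fun h => hab (Subtype.ext h), h2 a, h2 b⟩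

theorem siegel (F : ℤ[X]) (hF : Irreducible F) (hd : 2 ≤ F.natDegree) (N : ℕ) (hN : N ≠ 0) :
    {y : ℚ | LocN N y ∧ aeval y F ≠ 0 ∧ LocN N (aeval y F)⁻¹}.Finite := by
  classical
  obtain ⟨θ₁, θ₂, hne, h1, h2⟩ := two_roots F hF hd
  have hF0 : F ≠ 0 := hF.ne_zero
  have hint : ∀ x ∈ ({θ₁, θ₂} : Set Qbar), IsIntegral ℚ x := by
    have hq : ∀ x : Qbar, IsIntegral ℚ x := fun x =>
      ((AlgebraicClosure.isAlgebraic ℚ).isAlgebraic x).isIntegral
    exact fun x _ => hq x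
  let K : IntermediateField ℚ Qbar := IntermediateField.adjoin ℚ {θ₁, θ₂}
  have hfd : FiniteDimensional ℚ K := IntermediateField.finiteDimensional_adjoin hint
  have hNF : NumberField K := { to_charZero := inferInstance, to_finiteDimensional := hfd }
  have hK1 : θ₁ ∈ K := IntermediateField.subset_adjoin ℚ _ (by simp)
  have hK2 : θ₂ ∈ K := IntermediateField.subset_adjoin ℚ _ (by simp)
  have hKN : ((N : ℕ) : Qbar) ∈ K := natCast_mem K N
  let s : Set Qbar := {θ₁, θ₂, ((N : ℕ) : Qbar)⁻¹, θ₂ - θ₁, (θ₂ - θ₁)⁻¹}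
  have hs : s.Finite := by
    simp only [s]
    exact Set.toFinite _
  have hsK : ∀ w ∈ s, w ∈ K := by
    intro w hw
    simp only [s, Set.mem_insert_iff, Set.mem_singleton_iff] at hw
    rcases hw with rfl | rfl | rfl | rfl | rfl
    · exact hK1
    · exact hK2
    · exact K.inv_mem hKN
    · exact K.sub_mem hK2 hK1
    · exact K.inv_mem (K.sub_mem hK2 hK1)
  obtain ⟨S, hSd⟩ : ∃ S : Set (HeightOneSpectrum (𝓞 K)), S = {v | ∃ w ∈ s, w ∉ Ov v} := ⟨_, rfl⟩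
  have hS : S.Finite := by
    rw [hSd]
    exact bad_finite s hs hsK
  have hgood : ∀ v, v ∉ S → ∀ w ∈ s, w ∈ Ov v := by
    intro v hv w hw
    by_contra hc
    apply hv
    rw [hSd]
    exact ⟨w, hw, hc⟩
  have hfin := unit_eq (GS S) (GS_fg S hS)
  have hd0 : θ₂ - θ₁ ≠ 0 := sub_ne_zero.2 hne.symm
  have hcast : Function.Injective (fun y : ℚ => ((y : ℚ) : Qbar)) := Rat.cast_injective
  refine ((hfin.image fun u => θ₁ + u * (θ₂ - θ₁)).preimage hcast.injOn).subset ?_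
  rintro y ⟨hy, hy0, hyi⟩
  have hcasty : aeval ((y : ℚ) : Qbar) F = ((aeval y F : ℚ) : Qbar) := by
    have h3 := Polynomial.aeval_algebraMap_apply Qbar y F
    simpa using h3
  have hy0' : aeval ((y : ℚ) : Qbar) F ≠ 0 := by
    rw [hcasty]
    exact_mod_cast hy0
  have hyK : ((y : ℚ) : Qbar) ∈ K := SubfieldClass.ratCast_mem K y
  have hdat : ∀ v, v ∉ S → ((y : ℚ) : Qbar) ∈ Ov v ∧ (aeval ((y : ℚ) : Qbar) F)⁻¹ ∈ Ov v := by
    intro v hv
    have hNv : ((N : ℕ) : Qbar)⁻¹ ∈ Ov v := hgood v hv _ (by simp [s])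
    refine ⟨hy.mem _ hNv, ?_⟩
    rw [hcasty, ← Rat.cast_inv]
    exact hyi.mem _ hNv
  have hinv : ∀ θ ∈ s, aeval θ F = 0 → ∀ v, v ∉ S → (((y : ℚ) : Qbar) - θ)⁻¹ ∈ Ov v := by
    intro θ hθ hθ0 v hv
    exact inv_sub_mem _ F _ θ (hdat v hv).1 (hgood v hv θ hθ) hθ0 hy0' (hdat v hv).2
  have hm1 : θ₁ ∈ s := by simp [s]
  have hm2 : θ₂ ∈ s := by simp [s]
  have hm3 : θ₂ - θ₁ ∈ s := by simp [s]
  have hm4 : (θ₂ - θ₁)⁻¹ ∈ s := by simp [s]
  have hne1 : ((y : ℚ) : Qbar) - θ₁ ≠ 0 := by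
    intro h
    apply hy0'
    rw [sub_eq_zero.1 h, h1]
  have hne2 : θ₂ - ((y : ℚ) : Qbar) ≠ 0 := by
    intro h
    apply hy0'
    rw [← sub_eq_zero.1 h, h2]
  have hg1 : Units.mk0 ((((y : ℚ) : Qbar) - θ₁) * (θ₂ - θ₁)⁻¹)
      (mul_ne_zero hne1 (inv_ne_zero hd0)) ∈ GS S := by
    refine mem_GS _ (K.mul_mem (K.sub_mem hyK hK1) (K.inv_mem (K.sub_mem hK2 hK1))) ?_
    intro v hv
    refine ⟨(Ov v).mul_mem ((Ov v).sub_mem (hdat v hv).1 (hgood v hv _ hm1)) (hgood v hv _ hm4), ?_⟩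
    rw [mul_inv, inv_inv]
    exact (Ov v).mul_mem (hinv _ hm1 h1 v hv) (hgood v hv _ hm3)
  have hg2 : Units.mk0 ((θ₂ - ((y : ℚ) : Qbar)) * (θ₂ - θ₁)⁻¹)
      (mul_ne_zero hne2 (inv_ne_zero hd0)) ∈ GS S := by
    refine mem_GS _ (K.mul_mem (K.sub_mem hK2 hyK) (K.inv_mem (K.sub_mem hK2 hK1))) ?_
    intro v hv
    refine ⟨(Ov v).mul_mem ((Ov v).sub_mem (hgood v hv _ hm2) (hdat v hv).1) (hgood v hv _ hm4), ?_⟩
    rw [mul_inv, inv_inv]
    refine (Ov v).mul_mem ?_ (hgood v hv _ hm3)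
    have h3 := (Ov v).neg_mem (hinv _ hm2 h2 v hv)
    rw [← inv_neg, neg_sub] at h3
    exact h3
  refine ⟨(((y : ℚ) : Qbar) - θ₁) * (θ₂ - θ₁)⁻¹, ⟨_, hg1, _, hg2, rfl, ?_⟩, ?_⟩
  · rw [Units.val_mk0, Units.val_mk0]
    field_simp
    ring
  · show θ₁ + (((y : ℚ) : Qbar) - θ₁) * (θ₂ - θ₁)⁻¹ * (θ₂ - θ₁) = ((y : ℚ) : Qbar)
    rw [inv_mul_cancel_right₀ hd0]
    ring

end Pool.Agent.V1138.BO
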