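import Mathlib
import Pool.Agent.V1138.BO.Siegel
import Pool.Agent.Y152.BD.Nv

/-!
# Backward orbits under semigroups of polynomials: the values of the minimal polynomials have large
prime factors
-/

set_option autoImplicit false

namespace Pool.Agent.V1138.BO

open Polynomial
open Pool.Agent.Y152.BD (Nv Nv_map)

variable {r : ℕ}

/-- the polynomial `g ∘ φ_{i_1} ∘ … ∘ φ_{i_m}` for the word `i_1 … i_m` -/
noncomputable def cmp (φ : Fin r → ℤ[X]) (g : ℤ[X]) (w : List (Fin r)) : ℤ[X] :=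
  w.foldl (fun q i => q.comp (φ i)) g

/-- the value `φ_{i_1} (… (φ_{i_m} (x)))` for the word `i_1 … i_m` -/
noncomputable def act {A : Type*} [CommRing A] (φ : Fin r → ℤ[X]) (w : List (Fin r)) (x : A) : A :=
  w.foldr (fun i y => aeval y (φ i)) x

theorem cmp_cons (φ : Fin r → ℤ[X]) (g : ℤ[X]) (i : Fin r) (w : List (Fin r)) :
    cmp φ g (i :: w) = cmp φ (g.comp (φ i)) w := rfl

theorem act_cons {A : Type*} [CommRing A] (φ : Fin r → ℤ[X]) (i : Fin r) (w : List (Fin r))
    (x : A) : act φ (i :: w) x = aeval (act φ w x) (φ i) := rfl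

theorem aeval_cmp {A : Type*} [CommRing A] (φ : Fin r → ℤ[X]) (g : ℤ[X]) (w : List (Fin r))
    (x : A) : aeval x (cmp φ g w) = aeval (act φ w x) g := by
  induction w generalizing g with
  | nil => rfl
  | cons i w ih => rw [cmp_cons, ih, aeval_comp, act_cons]

theorem inv_locN {N D : ℕ} (hN : N ≠ 0) (hDN : ∀ p : ℕ, p.Prime → p ≤ D → p ∣ N) (z : ℤ)
    (hz : z ≠ 0) (h : ∀ p : ℕ, p.Prime → D < p → ¬ (p : ℤ) ∣ z) : LocN N ((z : ℚ)⁻¹) := by
  have hN0 : (N : ℚ) ≠ 0 := by exact_mod_cast hN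
  have hnat : ∀ n : ℕ, n ≠ 0 → (∀ p : ℕ, p.Prime → p ∣ n → p ≤ D) → LocN N ((n : ℚ)⁻¹) := by
    intro n
    induction n using induction_on_primes with
    | zero => intro h0; exact absurd rfl h0
    | one => intro _ _; simpa using LocN.int N 1
    | prime_mul p a hp ih =>
      intro hn h
      have ha : a ≠ 0 := fun h0 => hn (by rw [h0, mul_zero])
      have h1 := ih ha fun q hq hqa => h q hq (hqa.trans (dvd_mul_left a p))
      obtain ⟨c, hc⟩ := hDN p hp (h p hp (dvd_mul_right p a))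
      have h2 : LocN N ((p : ℚ)⁻¹) := by
        refine ⟨1, c, ?_⟩
        have hp0 : (p : ℚ) ≠ 0 := by exact_mod_cast hp.ne_zero
        have hc' : (N : ℚ) = p * c := by exact_mod_cast hc
        rw [pow_one, Int.cast_natCast, eq_div_iff hN0, hc']
        field_simp
      have h3 := h2.mul h1
      rw [← mul_inv] at h3
      exact_mod_cast h3
  have h1 := hnat z.natAbs (Int.natAbs_ne_zero.2 hz) fun p hp hpd => by
    by_contra hlt
    push Not at hlt
    exact h p hp hlt (Int.natCast_dvd.2 hpd)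
  rcases Int.natAbs_eq z with h4 | h4
  · rw [h4, Int.cast_natCast]
    exact h1
  · rw [h4, Int.cast_neg, Int.cast_natCast, inv_neg]
    have h5 := (LocN.int N (-1)).mul h1
    simpa using h5

theorem bad_words (φ : Fin r → ℤ[X]) (g : ℤ[X]) (hdeg : ∀ i, 2 ≤ g.natDegree * (φ i).natDegree)
    (hirr : ∀ w, Irreducible (cmp φ g w)) (α : ℚ) (hα : ∀ y : ℚ, {w | act φ w α = y}.Finite)
    (D : ℕ) : {w : List (Fin r) | ∀ p : ℕ, p.Prime → D < p →
      ¬ (p : ℤ) ∣ Nv (cmp φ g w) α}.Finite := by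
  classical
  set N : ℕ := D.factorial * α.den with hNd
  have hN : N ≠ 0 := Nat.mul_ne_zero (Nat.factorial_ne_zero D) α.den_ne_zero
  have hDN : ∀ p : ℕ, p.Prime → p ≤ D → p ∣ N := fun p hp hpD =>
    Dvd.dvd.mul_right ((hp.dvd_factorial).2 hpD) _
  have hN0 : (N : ℚ) ≠ 0 := by exact_mod_cast hN
  have hden : ((α.den : ℕ) : ℚ) ≠ 0 := by exact_mod_cast α.den_ne_zero
  have hαN : LocN N α := by
    refine ⟨1, α.num * D.factorial, ?_⟩
    rw [pow_one, eq_div_iff hN0, hNd]
    have h1 : α * α.den = α.num := Rat.mul_den_eq_num α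
    push_cast
    rw [← h1]
    ring
  have hact : ∀ w, LocN N (act φ w α) := by
    intro w
    induction w with
    | nil => exact hαN
    | cons i w ih => exact ih.aeval hN (φ i)
  have hY : ∀ i, {y : ℚ | LocN N y ∧ aeval y (g.comp (φ i)) ≠ 0 ∧
      LocN N (aeval y (g.comp (φ i)))⁻¹}.Finite := fun i =>
    siegel (g.comp (φ i)) (hirr [i]) (by rw [natDegree_comp]; exact hdeg i) N hN
  have hW : ∀ i, {w | act φ w α ∈ {y : ℚ | LocN N y ∧ aeval y (g.comp (φ i)) ≠ 0 ∧
      LocN N (aeval y (g.comp (φ i)))⁻¹}}.Finite := by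
    intro i
    refine ((hY i).biUnion fun y _ => hα y).subset ?_
    intro w hw
    exact Set.mem_biUnion hw rfl
  refine ((Set.finite_singleton ([] : List (Fin r))).union
    (Set.finite_iUnion fun i => (hW i).image (List.cons i))).subset ?_
  intro w hw
  rcases w with _ | ⟨i, w⟩
  · exact Or.inl rfl
  right
  refine Set.mem_iUnion.2 ⟨i, w, ⟨hact w, ?_⟩, rfl⟩
  set z : ℤ := Nv (cmp φ g (i :: w)) α with hz
  have hz0 : z ≠ 0 := by
    intro h
    obtain ⟨p, hpD, hp⟩ := Nat.exists_infinite_primes (D + 1)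
    exact hw p hp (by omega) (by rw [← hz, h]; exact dvd_zero _)
  have hzv : (z : ℚ) = (α.den : ℚ) ^ (cmp φ g (i :: w)).natDegree *
      aeval (act φ w α) (g.comp (φ i)) := by
    rw [hz, Nv_map _ α α (by rw [mul_comm]; exact Rat.mul_den_eq_num α), cmp_cons, aeval_cmp]
  have hne : aeval (act φ w α) (g.comp (φ i)) ≠ 0 := by
    intro h
    rw [h, mul_zero] at hzv
    exact hz0 (by exact_mod_cast hzv)
  refine ⟨hne, ?_⟩
  have h1 : (aeval (act φ w α) (g.comp (φ i)))⁻¹ =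
      (((α.den : ℤ) ^ (cmp φ g (i :: w)).natDegree : ℤ) : ℚ) * (z : ℚ)⁻¹ := by
    rw [hzv]
    push_cast
    field_simp
  rw [h1]
  exact (LocN.int N _).mul (inv_locN hN hDN z hz0 hw)

/-- For all but finitely many `t` in the backward orbit of the roots of `g` under the semigroup
generated by the `φ i`, all values of the minimal polynomial at the `α` have a large prime factor. -/
theorem finite_badB (D : ℕ) {M L : ℕ} (hM : L ≤ M) (α : Fin M → ℚ) (φ : Fin r → ℤ[X]) (g : ℤ[X])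
    (hdeg : ∀ i, 2 ≤ g.natDegree * (φ i).natDegree) (hirr : ∀ w, Irreducible (cmp φ g w))
    (hα : ∀ l, ∀ y : ℚ, {w | act φ w (α l) = y}.Finite) :
    {t : ℂ | (∃ w, aeval (act φ w t) g = 0) ∧ ¬ ∃ f : Fin L → Fin M, Function.Injective f ∧
      ∃ G : ℤ[X], Irreducible G ∧ aeval t G = 0 ∧
      ∀ l, ∃ p : ℕ, p.Prime ∧ D < p ∧ (p : ℤ) ∣ Nv G (α (f l))}.Finite := by
  classical
  have hB := Set.finite_iUnion fun l => bad_words φ g hdeg hirr (α l) (hα l) D
  refine (hB.biUnion (t := fun w => {t : ℂ | aeval t (cmp φ g w) = 0}) fun w _ => ?_).subset ?_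
  · refine ((cmp φ g w).aroots ℂ).toFinset.finite_toSet.subset fun t ht => ?_
    rw [Finset.mem_coe, Multiset.mem_toFinset, mem_aroots]
    exact ⟨(hirr w).ne_zero, ht⟩
  · rintro t ⟨⟨w, hw⟩, hbad⟩
    have hwt : aeval t (cmp φ g w) = 0 := by rw [aeval_cmp]; exact hw
    refine Set.mem_biUnion ?_ hwt
    by_contra hc
    rw [Set.mem_iUnion] at hc
    push Not at hc
    apply hbad
    refine ⟨Fin.castLE hM, Fin.castLE_injective hM, cmp φ g w, hirr w, hwt, fun l => ?_⟩
    have h1 := hc (Fin.castLE hM l)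
    rw [Set.mem_ofPred_eq] at h1
    push Not at h1
    obtain ⟨p, hp, hpD, hd⟩ := h1
    exact ⟨p, hp, hpD, hd⟩

theorem alg_of_backward (φ : Fin r → ℤ[X]) (g : ℤ[X]) (hirr : ∀ w, Irreducible (cmp φ g w))
    (t : ℂ) (ht : ∃ w, aeval (act φ w t) g = 0) : IsAlgebraic ℤ t := by
  obtain ⟨w, hw⟩ := ht
  exact ⟨cmp φ g w, (hirr w).ne_zero, by rw [aeval_cmp]; exact hw⟩

end Pool.Agent.V1138.BO
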