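import Mathlib
import Pool.Agent.V1138.BO.Many

/-!
# Examples of irreducible composites: Eisenstein polynomials
-/

set_option autoImplicit false

namespace Pool.Agent.V1138.BO

open Polynomial

variable {r : ℕ}

theorem cmp_monic (φ : Fin r → ℤ[X]) (hm : ∀ i, (φ i).Monic) (hd : ∀ i, 2 ≤ (φ i).natDegree)
    (w : List (Fin r)) : ∀ g : ℤ[X], g.Monic → 1 ≤ g.natDegree →
      (cmp φ g w).Monic ∧ 1 ≤ (cmp φ g w).natDegree := by
  induction w with
  | nil => intro g hg hg1; exact ⟨hg, hg1⟩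
  | cons i w ih =>
    intro g hg hg1
    rw [cmp_cons]
    refine ih _ (hg.comp (hm i) (by have := hd i; omega)) ?_
    rw [natDegree_comp]
    have := hd i
    nlinarith

theorem cmp_map {p : ℕ} (φ : Fin r → ℤ[X])
    (hφ : ∀ i, (φ i).map (Int.castRingHom (ZMod p)) = X ^ (φ i).natDegree)
    (w : List (Fin r)) : ∀ (g : ℤ[X]) (e : ℕ), g.map (Int.castRingHom (ZMod p)) = X ^ e →
      ∃ e', (cmp φ g w).map (Int.castRingHom (ZMod p)) = X ^ e' := by
  induction w with
  | nil => intro g e hg; exact ⟨e, hg⟩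
  | cons i w ih =>
    intro g e hg
    rw [cmp_cons]
    refine ih _ ((φ i).natDegree * e) ?_
    rw [Polynomial.map_comp, hg, hφ, X_pow_comp, ← pow_mul]

theorem eval_sq {p : ℤ} (f : ℤ[X]) (hf : f.Monic) (hd : 2 ≤ f.natDegree)
    (hlow : ∀ j, j < f.natDegree → p ∣ f.coeff j) (z : ℤ) (hz : p ∣ z) :
    p ^ 2 ∣ eval z f - f.coeff 0 := by
  rw [eval_eq_sum_range, Finset.sum_range_succ']
  have h1 : ∑ k ∈ Finset.range f.natDegree, f.coeff (k + 1) * z ^ (k + 1) + f.coeff 0 * z ^ 0 -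
      f.coeff 0 = ∑ k ∈ Finset.range f.natDegree, f.coeff (k + 1) * z ^ (k + 1) := by
    rw [pow_zero, mul_one, add_sub_cancel_right]
  rw [h1]
  refine Finset.dvd_sum fun k hk => ?_
  rw [Finset.mem_range] at hk
  by_cases h2 : k + 1 = f.natDegree
  · refine Dvd.dvd.mul_left ?_ _
    have h3 : p ^ 2 ∣ z ^ 2 := pow_dvd_pow_of_dvd hz 2
    exact h3.trans (pow_dvd_pow z (by omega))
  · rw [sq]
    refine mul_dvd_mul (hlow _ (by omega)) ?_
    exact hz.trans (dvd_pow_self z (by omega))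

/-- Eisenstein polynomials: if the monic polynomials `φ i`, of degree at least two, are powers of `X`
modulo `p`, and if `p` divides `β`, but `p ^ 2` does not divide the numbers `φ i (0) - β`, then all
composites are irreducible. -/
theorem eisenstein {p : ℕ} (hp : p.Prime) (φ : Fin r → ℤ[X]) (hm : ∀ i, (φ i).Monic)
    (hd : ∀ i, 2 ≤ (φ i).natDegree) (hlow : ∀ i j, j < (φ i).natDegree → (p : ℤ) ∣ (φ i).coeff j)
    (β : ℤ) (hβ : (p : ℤ) ∣ β) (hβ2 : ∀ i, ¬ (p : ℤ) ^ 2 ∣ (φ i).coeff 0 - β)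
    (w : List (Fin r)) : Irreducible (cmp φ (X - C β) w) := by
  have hpZ : Prime (p : ℤ) := Nat.prime_iff_prime_int.1 hp
  have hfact : Fact p.Prime := ⟨hp⟩
  have hzero : ∀ a : ℤ, (Int.castRingHom (ZMod p)) a = 0 ↔ (p : ℤ) ∣ a := fun a =>
    ZMod.intCast_zmod_eq_zero_iff_dvd a p
  have hφ : ∀ i, (φ i).map (Int.castRingHom (ZMod p)) = X ^ (φ i).natDegree := by
    intro i
    ext j
    rw [coeff_map, coeff_X_pow]
    rcases lt_trichotomy j (φ i).natDegree with h | h | h
    · rw [if_neg (by omega), hzero]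
      exact hlow i j h
    · rw [if_pos h, h]
      have h1 : (φ i).coeff (φ i).natDegree = 1 := hm i
      rw [h1, map_one]
    · rw [if_neg (by omega), coeff_eq_zero_of_natDegree_lt h, map_zero]
  have hg : (X - C β : ℤ[X]).map (Int.castRingHom (ZMod p)) = X ^ 1 := by
    rw [Polynomial.map_sub, map_X, map_C, (hzero β).2 hβ, C_0, sub_zero, pow_one]
  -- the values at zero
  have hact : ∀ w : List (Fin r), (p : ℤ) ∣ act φ w (0 : ℤ) := by
    intro w
    induction w with
    | nil => exact dvd_zero _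
    | cons i w ih =>
      rw [act_cons]
      have h1 := eval_sq (φ i) (hm i) (hd i) (hlow i) _ ih
      have h2 : (p : ℤ) ∣ eval (act φ w (0 : ℤ)) (φ i) - (φ i).coeff 0 :=
        (dvd_pow_self _ two_ne_zero).trans h1
      have h3 := dvd_add h2 (hlow i 0 (by have := hd i; omega))
      rw [sub_add_cancel] at h3
      rwa [← coe_aeval_eq_eval] at h3
  rcases w with _ | ⟨i, w⟩
  · exact (prime_X_sub_C β).irreducible
  obtain ⟨h1, h2⟩ := cmp_monic φ hm hd (i :: w) (X - C β) (monic_X_sub_C β)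
    (by rw [natDegree_X_sub_C])
  obtain ⟨e, he⟩ := cmp_map (p := p) φ hφ (i :: w) (X - C β) 1 hg
  set f := cmp φ (X - C β) (i :: w) with hf
  have he' : e = f.natDegree := by
    have h3 := h1.natDegree_map (Int.castRingHom (ZMod p))
    rw [he, natDegree_X_pow] at h3
    exact h3
  refine irreducible_of_eisenstein_criterion (P := Ideal.span {(p : ℤ)})
    ((Ideal.span_singleton_prime hpZ.ne_zero).2 hpZ) ?_ ?_ ?_ ?_ h1.isPrimitive
  · rw [h1.leadingCoeff, Ideal.mem_span_singleton]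
    intro h
    exact hpZ.not_isUnit (isUnit_of_dvd_one h)
  · intro n hn
    rw [Ideal.mem_span_singleton, ← hzero, ← coeff_map, he, coeff_X_pow, if_neg]
    intro h
    rw [h, he', ← degree_eq_natDegree h1.ne_zero] at hn
    exact lt_irrefl _ hn
  · rw [degree_eq_natDegree h1.ne_zero]
    exact_mod_cast h2
  · rw [Ideal.span_singleton_pow, Ideal.mem_span_singleton]
    have h3 : f.coeff 0 = act φ (i :: w) (0 : ℤ) - β := by
      have h4 := aeval_cmp φ (X - C β) (i :: w) (0 : ℤ)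
      rw [← hf, coe_aeval_eq_eval, coe_aeval_eq_eval, eval_sub, eval_X, eval_C] at h4
      rw [coeff_zero_eq_eval_zero, h4]
    rw [h3]
    intro h5
    apply hβ2 i
    have h6 := eval_sq (φ i) (hm i) (hd i) (hlow i) _ (hact w)
    rw [act_cons, coe_aeval_eq_eval] at h5
    have h7 := dvd_sub h5 h6
    have h8 : eval (act φ w (0 : ℤ)) (φ i) - β - (eval (act φ w (0 : ℤ)) (φ i) - (φ i).coeff 0) =
        (φ i).coeff 0 - β := by ring
    rwa [h8] at h7

end Pool.Agent.V1138.BO
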